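import Mathlib
import Pool.Agent.Helper669.Forcing

/-!
# Statements about cardinalities and join-semilattices in a generic extension

The forcing relation is the one of `Pool.Agent.Helper669.Forcing`: a sentence is the set of the
conditions which force it. A name for a subset of a ground model set `X` is a map from `X` to sets
of conditions. Each set of the extension is in bijection, in the extension, with a set of the
ground model, so that structures of the extension are given by names of relations on a ground model
set `L`.
-/

set_option autoImplicit false

namespace Pool.Agent.TH779.DT

open Cardinal Pool.Agent.Helper669.Forcing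

section

variable {P : Type} [Preorder P]

/-- In the extension, the subset of `B` named by `S` is the image of a subset of `A`:
its cardinality is at most the cardinality of `A`. -/
def CardLe {B : Type} (S : B → Set P) (A : Type) : Set P :=
  fex fun E : A → B → Set P =>
    fand (fall fun a => fall fun b => fall fun b' =>
      fimp (fand (meets (E a b)) (meets (E a b'))) (fground (b = b')))
      (fall fun b => fimp (meets (S b)) (fex fun a => meets (E a b)))

/-- In the extension, the cardinality of (the ground model set) `A` is at most `ℵ_n`. It is at most
`ℵ_0` if `A` is the image of a subset of `ℕ`, and it is at most `ℵ_(n+1)` if `A` is the image of a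
subset of a linearly ordered set all of whose proper initial segments have cardinality at most
`ℵ_n`. (In the extension, if `|A| ≤ ℵ_(n+1)` then the linear order can be taken to be an ordinal,
which belongs to the ground model.) -/
def LeAleph (P : Type) [Preorder P] : ℕ → Type → Set P
  | 0, A => CardLe (fun _ : A => Set.univ) ℕ
  | n + 1, A => fex fun K : Type => fex fun _ : LinearOrder K =>
      fand (fall fun k : K => LeAleph P n (Set.Iio k)) (CardLe (fun _ : A => Set.univ) K)

/-- In the extension, the cardinality of `A` is at most `ℵ_ω`: `A` is the image of a subset of a
disjoint union of sets `B n` of cardinality less than `ℵ_ω`. -/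
def LeAlephOmega (P : Type) [Preorder P] (A : Type) : Set P :=
  fex fun B : ℕ → Type =>
    fand (fall fun n => fex fun m => LeAleph P m (B n))
      (CardLe (fun _ : A => Set.univ) (Σ n, B n))

/-- In the extension, the cardinality of `A` is at most `ℵ_(ω+1)`. -/
def LeAlephOmegaSucc (P : Type) [Preorder P] (A : Type) : Set P :=
  fex fun K : Type => fex fun _ : LinearOrder K =>
    fand (fall fun k : K => LeAlephOmega P (Set.Iio k)) (CardLe (fun _ : A => Set.univ) K)

/-- In the extension, the cardinality of `A` is `ℵ_(ω+1)`. -/
def IsAlephOmegaSucc (P : Type) [Preorder P] (A : Type) : Set P :=
  fand (LeAlephOmegaSucc P A) (fnot (LeAlephOmega P A))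

variable {L : Type}

/-- In the extension, the subset of `L` named by `S` has cardinality less than `ℵ_ω`. -/
def LtAlephOmega (S : L → Set P) : Set P :=
  fex fun m : ℕ => fex fun A : Type => fand (LeAleph P m A) (CardLe S A)

/-- In the extension, the relation on `L` named by `R` is a partial order. -/
def IsOrder (R : L → L → Set P) : Set P :=
  fand (fall fun x => meets (R x x))
    (fand (fall fun x => fall fun y => fall fun z =>
        fimp (fand (meets (R x y)) (meets (R y z))) (meets (R x z)))
      (fall fun x => fall fun y =>
        fimp (fand (meets (R x y)) (meets (R y x))) (fground (x = y))))

/-- In the extension, `z` is the least upper bound of the finite subset `X` of `L`, for the order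
named by `R`. -/
def IsSup (R : L → L → Set P) (X : Finset L) (z : L) : Set P :=
  fand (fall fun x : L => fall fun _ : x ∈ X => meets (R x z))
    (fall fun w : L => fimp (fall fun x : L => fall fun _ : x ∈ X => meets (R x w))
      (meets (R z w)))

open Classical in
/-- In the extension, `L` with the order named by `R` is a join-semilattice. -/
def IsJoinSemilattice (R : L → L → Set P) : Set P :=
  fand (IsOrder R) (fall fun x => fall fun y => fex fun z => IsSup R {x, y} z)

/-- In the extension, the join-semilattice `L` with the order named by `R` has breadth at most `2`:
every nonempty finite subset `X` of `L` has a nonempty subset `Y` with at most two elements and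
with the same join. -/
def BreadthAtMostTwo (R : L → L → Set P) : Set P :=
  fall fun X : Finset L => fall fun _ : X.Nonempty => fex fun Y : Finset L =>
    fand (fground (Y.Nonempty ∧ Y ⊆ X ∧ Y.card ≤ 2))
      (fall fun z => fimp (IsSup R X z) (IsSup R Y z))

end

/-- In the extension: each join-semilattice of breadth at most `2` and cardinality `ℵ_(ω+1)` has a
principal ideal of cardinality at least `ℵ_ω`. -/
def NoSemilattice (P : Type) [Preorder P] : Set P :=
  fall fun L : Type => fall fun R : L → L → Set P =>
    fimp (fand (IsJoinSemilattice R) (fand (BreadthAtMostTwo R) (IsAlephOmegaSucc P L)))
      (fex fun a : L => fnot (LtAlephOmega fun x => R x a))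

end Pool.Agent.TH779.DT
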