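import Mathlib
import Pool.Agent.TH779.DT.Defs
import Pool.Agent.W910.LC.T_L1
import Pool.Agent.W910.LC.T_L2
import Pool.Agent.W910.LC.T_L3

/-!
# Cardinalities in the extension by the Levy collapse
-/

set_option autoImplicit false

namespace Pool.Agent.TH779.DT

open Cardinal Set Pool.Agent.Helper669.Forcing Pool.Agent.W910.LC

/-- `κ`, `κ⁺`, `κ⁺⁺`, ... -/
noncomputable def Kc (κ : Cardinal.{0}) : ℕ → Cardinal.{0}
  | 0 => κ
  | n + 1 => Order.succ (Kc κ n)

theorem le_Kc (κ : Cardinal.{0}) (n : ℕ) : κ ≤ Kc κ n := by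
  induction n with
  | zero => exact le_rfl
  | succ n ih => exact ih.trans (Order.le_succ _)

theorem Kc_mono (κ : Cardinal.{0}) : Monotone (Kc κ) :=
  monotone_nat_of_le_succ fun _ => Order.le_succ _

/-- the supremum of the `Kc κ n` -/
noncomputable def Lc (κ : Cardinal.{0}) : Cardinal.{0} := ⨆ n, Kc κ n

theorem Kc_le_Lc (κ : Cardinal.{0}) (n : ℕ) : Kc κ n ≤ Lc κ :=
  le_ciSup (bddAbove_of_small) n

theorem Kc_lt_Lc (κ : Cardinal.{0}) (n : ℕ) : Kc κ n < Lc κ :=
  (Order.lt_succ (Kc κ n)).trans_le (Kc_le_Lc κ (n + 1))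

/-- A totally preordered set with all initial segments of size at most `κ` has size at most
`κ⁺`. -/
theorem total_small {A : Type} {κ : Cardinal.{0}} (hκ : ℵ₀ ≤ κ) (r : A → A → Prop)
    (htot : ∀ i j, r i j ∨ r j i) (hsm : ∀ j, #{i | r i j} ≤ κ) : #A ≤ Order.succ κ := by
  by_contra hcon
  push Not at hcon
  obtain ⟨B, hB⟩ := le_mk_iff_exists_set.1 hcon.le
  have hU : #(⋃ j : B, {i | r i j.1}) ≤ Order.succ κ := by
    refine mk_iUnion_le_sum_mk.trans ?_
    calc Cardinal.sum (fun j : B => #{i | r i j.1}) ≤ Cardinal.sum (fun _ : B => κ) :=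
          sum_le_sum _ _ fun j => hsm j.1
      _ = #B * κ := by simp
      _ = Order.succ κ * κ := by rw [hB]
      _ = Order.succ κ :=
          mul_eq_left (hκ.trans (Order.le_succ κ)) (Order.le_succ κ) (aleph0_pos.trans_le hκ).ne'
  have hne : ∃ i, i ∉ (⋃ j : B, {i | r i j.1}) := by
    by_contra hall
    push Not at hall
    have huniv : (⋃ j : B, {i | r i j.1}) = Set.univ := eq_univ_of_forall hall
    rw [huniv, mk_univ] at hU
    exact absurd hU (not_le.2 hcon)
  obtain ⟨i, hi⟩ := hne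
  have hsub : B ⊆ {j | r j i} := by
    intro j hj
    rcases htot i j with h | h
    · exact absurd (mem_iUnion.2 ⟨⟨j, hj⟩, h⟩) hi
    · exact h
  have := (mk_le_mk_of_subset hsub).trans (hsm i)
  rw [hB] at this
  exact absurd this (not_le.2 (Order.lt_succ κ))

section

variable {P : Type} [Preorder P]

/-- The possible elements of a set of small cardinality. -/
theorem cover {B A : Type} {S : B → Set P} {q : P} (h : q ∈ CardLe S A) :
    #{b : B | ∃ s ≤ q, s ∈ meets (S b)} ≤ #P * #P * #A := by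
  classical
  let G : P → (A → B → Set P) → Prop := fun r E => r ∈
    fand (fall fun a => fall fun b => fall fun b' =>
      fimp (fand (meets (E a b)) (meets (E a b'))) (fground (b = b')))
      (fall fun b => fimp (meets (S b)) (fex fun a => meets (E a b)))
  have hE : ∀ r, ∃ E, (∃ E', G r E') → G r E := by
    intro r
    by_cases h : ∃ E', G r E'
    · exact ⟨h.choose, fun _ => h.choose_spec⟩
    · exact ⟨fun _ _ => ∅, fun h' => absurd h' h⟩
  choose E hE using hE
  have key : ∀ b : {b : B | ∃ s ≤ q, s ∈ meets (S b)}, ∃ t : P × P × A,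
      t.2.1 ≤ t.1 ∧ G t.1 (E t.1) ∧ t.2.1 ∈ meets (E t.1 t.2.2 b.1) := by
    rintro ⟨b, s, hs, hb⟩
    obtain ⟨r, hr, E', hE'⟩ := mem_fex.1 h s hs
    have hG : G r (E r) := hE r ⟨E', hE'⟩
    obtain ⟨r', hr', h'⟩ := mem_fimp.1 (hG.2 b) r le_rfl (down_meets _ _ hb r hr)
    obtain ⟨r'', hr'', a, ha⟩ := mem_fex.1 h' r' le_rfl
    exact ⟨(r, r'', a), hr''.trans hr', hG, ha⟩
  choose f hf using key
  have hinj : Function.Injective f := by
    intro b b' hbb
    obtain ⟨h1, h2, h3⟩ := hf b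
    obtain ⟨h1', h2', h3'⟩ := hf b'
    rw [← hbb] at h3'
    obtain ⟨r, _, h⟩ := mem_fimp.1 (h2.1 (f b).2.2 b.1 b'.1) (f b).2.1 h1 ⟨h3, h3'⟩
    exact Subtype.ext h
  have := mk_le_of_injective hinj
  simpa [mul_assoc] using this

/-- The possible cardinality. -/
theorem leAleph_bound {κ : Cardinal.{0}} (hκ : ℵ₀ ≤ κ) (hP : #P ≤ κ) :
    ∀ (n : ℕ) (A : Type) (q : P), q ∈ LeAleph P n A → #A ≤ Kc κ n := by
  have hPP : #P * #P ≤ κ := (mul_le_mul' hP hP).trans (mul_eq_self hκ).le
  have hb : ∀ (A K : Type) (q : P), q ∈ CardLe (fun _ : A => Set.univ) K → #A ≤ κ * #K := by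
    intro A K q h
    have h1 := cover h
    have h2 : {b : A | ∃ s ≤ q, s ∈ meets (Set.univ : Set P)} = Set.univ := by
      refine eq_univ_of_forall fun b => ⟨q, le_rfl, fun r _ => ⟨r, le_rfl, r, trivial, le_rfl⟩⟩
    rw [h2, mk_univ] at h1
    exact h1.trans (mul_le_mul' hPP le_rfl)
  intro n
  induction n with
  | zero =>
    intro A q h
    refine (hb A ℕ q h).trans ?_
    rw [mk_nat]
    exact (mul_le_mul' le_rfl hκ).trans (mul_eq_self hκ).le
  | succ n ih =>
    intro A q h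
    obtain ⟨r, _, K, hK⟩ := mem_fex.1 h q le_rfl
    obtain ⟨r', _, inst, hK'⟩ := mem_fex.1 hK r le_rfl
    have h1 : ∀ k : K, #(Set.Iio k) ≤ Kc κ n := fun k => ih _ _ (hK'.1 k)
    have h2 : #K ≤ Order.succ (Kc κ n) := by
      refine total_small (hκ.trans (le_Kc κ n)) (fun i j : K => i ≤ j) le_total fun j => ?_
      have h3 : ({i | i ≤ j} : Set K) = insert j (Iio j) := by
        ext x; simp [le_iff_eq_or_lt]
      rw [h3]
      refine mk_insert_le.trans ?_
      calc #(Iio j) + 1 ≤ Kc κ n + Kc κ n :=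
            add_le_add (h1 j) (one_le_aleph0.trans (hκ.trans (le_Kc κ n)))
        _ = Kc κ n := add_eq_self (hκ.trans (le_Kc κ n))
    refine (hb A K r' hK'.2).trans ?_
    refine (mul_le_mul' (le_Kc κ (n + 1)) h2).trans ?_
    exact (mul_eq_self (hκ.trans (le_Kc κ (n + 1)))).le

/-- A ground model injection. -/
theorem cardLe_of_injective {A K : Type} (i : A → K) (hi : Function.Injective i) (p : P) :
    p ∈ CardLe (fun _ : A => (Set.univ : Set P)) K := by
  refine mem_fex_of_mem (fun k a => {_p | k = i a}) ?_ ⟨?_, ?_⟩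
  · exact down_fand (down_fall fun _ => down_fall fun _ => down_fall fun _ => down_fimp _ _)
      (down_fall fun _ => down_fimp _ _)
  · intro k a a'
    refine mem_fimp.2 fun q _ h => ⟨q, le_rfl, ?_⟩
    obtain ⟨r, _, s, hs, _⟩ := h.1 q le_rfl
    obtain ⟨r', _, s', hs', _⟩ := h.2 q le_rfl
    exact hi ((show k = i a from hs).symm.trans hs')
  · intro a
    refine mem_fimp.2 fun q _ _ => ⟨q, le_rfl, ?_⟩
    exact mem_fex_of_mem (i a) (down_meets _) (meets_of_mem (show i a = i a from rfl))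

theorem down_LeAleph (n : ℕ) (A : Type) : Down (LeAleph P n A) := by
  cases n <;> exact down_fex _

theorem down_CardLe {B A : Type} (S : B → Set P) : Down (CardLe S A) := down_fex _

/-- a ground model linear order with small initial segments -/
theorem leAleph_succ {n : ℕ} {A K : Type} [inst : LinearOrder K] {p : P}
    (h1 : ∀ k : K, p ∈ LeAleph P n (Set.Iio k))
    (h2 : p ∈ CardLe (fun _ : A => (Set.univ : Set P)) K) : p ∈ LeAleph P (n + 1) A := by
  refine mem_fex_of_mem K (down_fex _) (mem_fex_of_mem inst ?_ ⟨h1, h2⟩)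
  exact down_fand (down_fall fun _ => down_LeAleph _ _) (down_fex _)

end

section

variable {κ : Cardinal.{0}}

theorem leAleph_zero {P : Type} [Preorder P] {A : Type} (hA : #A ≤ ℵ₀) (p : P) :
    p ∈ LeAleph P 0 A := by
  rw [← mk_nat] at hA
  obtain ⟨i⟩ := hA
  exact cardLe_of_injective i i.injective p

/-- sets of size less than `κ` get size at most `ℵ₁` -/
theorem leAleph_one {A : Type} (hA : #A < κ) (p : Col κ) : p ∈ LeAleph (Col κ) 1 A := by
  refine leAleph_succ (K := Om.{0}) (fun ξ => leAleph_zero ?_ p) ?_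
  · have h1 : #(Iio ξ) < #(Om.{0}) := by
      have := mk_Iio_lt ξ (by simp)
      exact this
    rw [mk_ord_toType] at h1
    have h2 : (ℵ₁ : Cardinal.{0}) = Order.succ ℵ₀ := succ_aleph0.symm
    exact Order.lt_succ_iff.1 (h1.trans_eq h2)
  · obtain ⟨α, j, hj, hjα⟩ := T_L2.seg (#A) κ hA
    have hcard : #A = #((#A).ord.ToType) := (mk_ord_toType _).symm
    obtain ⟨e⟩ := Cardinal.eq.1 hcard
    refine mem_fex_of_mem (fun (ξ : Om.{0}) (a : A) => {q : Col κ | (α, ξ, j (e a)) ∈ q.carrier})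
      ?_ ⟨?_, ?_⟩
    · exact down_fand (down_fall fun _ => down_fall fun _ => down_fall fun _ => down_fimp _ _)
        (down_fall fun _ => down_fimp _ _)
    · intro ξ a a'
      refine mem_fimp.2 fun q _ h => ⟨q, le_rfl, ?_⟩
      obtain ⟨r, hr, s, hs, hrs⟩ := h.1 q le_rfl
      obtain ⟨r', hr', s', hs', hrs'⟩ := h.2 r hr
      have h1 : (α, ξ, j (e a)) ∈ r'.carrier := hr' (hrs hs)
      have h2 : (α, ξ, j (e a')) ∈ r'.carrier := hrs' hs'
      exact e.injective (hj (r'.fn _ h1 _ h2 rfl rfl))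
    · intro a
      refine mem_fimp.2 fun q _ _ => ⟨q, le_rfl, ?_⟩
      refine mem_fex.2 fun r _ => ?_
      have hcount : ((fun t : κ.ord.ToType × Om.{0} × κ.ord.ToType => t.2.1) '' r.carrier).Countable :=
        r.ctbl.image _
      have hne : ((fun t : κ.ord.ToType × Om.{0} × κ.ord.ToType => t.2.1) '' r.carrier) ≠
          Set.univ := by
        intro hu
        rw [hu] at hcount
        have h3 := hcount.le_aleph0
        rw [Cardinal.mk_univ] at h3
        have h4 : #(Om.{0}) = ℵ₁ := Cardinal.mk_ord_toType _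
        rw [h4] at h3
        exact absurd h3 (not_le.2 Cardinal.aleph0_lt_aleph_one)
      obtain ⟨ξ, hξ⟩ := (Set.ne_univ_iff_exists_notMem _).1 hne
      obtain ⟨s, hs, hs2⟩ := T_L2.ext r α ξ (j (e a)) (hjα _) (fun γ' hγ' => hξ ⟨_, hγ', rfl⟩)
      exact ⟨s, hs, ξ, meets_of_mem hs2⟩

theorem leAleph_add_two : ∀ (n : ℕ) (A : Type), #A ≤ Kc κ n → ∀ p : Col κ,
    p ∈ LeAleph (Col κ) (n + 2) A := by
  have hinj : ∀ (c : Cardinal.{0}) (A : Type), #A ≤ c → ∃ i : A → c.ord.ToType,
      Function.Injective i := by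
    intro c A h
    rw [← mk_ord_toType c] at h
    obtain ⟨i⟩ := h
    exact ⟨i, i.injective⟩
  intro n
  induction n with
  | zero =>
    intro A hA p
    obtain ⟨i, hi⟩ := hinj κ A hA
    refine leAleph_succ (K := κ.ord.ToType) (fun k => leAleph_one ?_ p)
      (cardLe_of_injective i hi p)
    have h1 : #(Iio k) < #(κ.ord.ToType) := mk_Iio_lt k (by simp)
    rwa [mk_ord_toType] at h1
  | succ n ih =>
    intro A hA p
    obtain ⟨i, hi⟩ := hinj (Kc κ (n + 1)) A hA
    refine leAleph_succ (K := (Kc κ (n + 1)).ord.ToType) (fun k => ih _ ?_ p)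
      (cardLe_of_injective i hi p)
    have h1 : #(Iio k) < #((Kc κ (n + 1)).ord.ToType) := mk_Iio_lt k (by simp)
    rw [mk_ord_toType] at h1
    exact Order.lt_succ_iff.1 h1

/-- sets of size at most `κ^(+ω)` get size at most `ℵ_ω` -/
theorem leAlephOmega {L : Type} (hL : #L ≤ Lc κ) (p : Col κ) :
    p ∈ LeAlephOmega (Col κ) L := by
  have h1 : #L ≤ #(Σ n : ℕ, (Kc κ n).ord.ToType) := by
    rw [mk_sigma]
    simp only [mk_ord_toType]
    refine hL.trans ?_
    have := Cardinal.iSup_le_sum (fun n : ℕ => Kc κ n)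
    simpa [Lc] using this
  obtain ⟨i⟩ := h1
  refine mem_fex_of_mem (fun n : ℕ => (Kc κ n).ord.ToType) ?_ ⟨?_, ?_⟩
  · exact down_fand (down_fall fun _ => down_fex _) (down_fex _)
  · intro n
    exact mem_fex_of_mem (n + 2) (down_LeAleph _ _)
      (leAleph_add_two n _ (mk_ord_toType _).le p)
  · exact cardLe_of_injective i i.injective p

/-- the size of the poset -/
theorem mk_col (hκ : κ.IsInaccessible) : #(Col κ) ≤ κ := by
  have hreg : κ.IsRegular := hκ.isRegular
  have hω : ℵ₀ < κ := hκ.1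
  have hb : ∀ p : Col κ, ∃ b, Bel b p := by
    intro p
    obtain ⟨b, hb⟩ := T_L3.bdd hreg ((fun t => t.1) '' p.carrier)
      (lt_of_le_of_lt ((p.ctbl.image _).le_aleph0) hω)
    exact ⟨b, fun t ht => hb _ ⟨t, ht, rfl⟩⟩
  have h1 : (Set.univ : Set (Col κ)) = ⋃ b : κ.ord.ToType, {p | Bel b p} := by
    symm
    refine eq_univ_of_forall fun p => ?_
    obtain ⟨b, hb⟩ := hb p
    exact mem_iUnion.2 ⟨b, hb⟩
  rw [← mk_univ, h1]
  refine mk_iUnion_le_sum_mk.trans ?_
  calc Cardinal.sum (fun b : κ.ord.ToType => #{p : Col κ | Bel b p})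
      ≤ Cardinal.sum (fun _ : κ.ord.ToType => κ) :=
        sum_le_sum _ _ fun b => (T_L3.small hκ b).le
    _ = κ := by simp [mul_eq_self hω.le]

end

end Pool.Agent.TH779.DT
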