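import Mathlib
import Pool.Agent.TH779.DT.Card

/-!
# Named join-semilattices of breadth at most two with small principal ideals
-/

set_option autoImplicit false

namespace Pool.Agent.TH779.DT

open Cardinal Set Pool.Agent.Helper669.Forcing Pool.Agent.W910.LC

section

variable {P : Type} [Preorder P] {L : Type}

theorem meets_dense {N : Set P} {p : P} (h : ∀ q ≤ p, ∃ r ≤ q, r ∈ meets N) : p ∈ meets N := by
  intro q hq
  obtain ⟨r, hr, h'⟩ := h q hq
  obtain ⟨r', hr', s, hs, hle⟩ := h' r le_rfl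
  exact ⟨r', hr'.trans hr, s, hs, hle⟩

theorem mp_meets {φ N : Set P} {p : P} (hφ : Down φ) (h : p ∈ fimp φ (meets N)) (h' : p ∈ φ) :
    p ∈ meets N :=
  meets_dense fun q hq => mem_fimp.1 h q hq (hφ p h' q hq)

theorem fex_dense {ι : Type*} {φ : ι → Set P} {p : P} (h : ∀ q ≤ p, ∃ r ≤ q, r ∈ fex φ) :
    p ∈ fex φ := by
  refine mem_fex.2 fun q hq => ?_
  obtain ⟨r, hr, h'⟩ := h q hq
  obtain ⟨s, hs, i, hi⟩ := mem_fex.1 h' r le_rfl
  exact ⟨s, hs.trans hr, i, hi⟩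

/-- the principal ideal of `c` has size at most `ℵ_n` -/
def Rk (R : L → L → Set P) (n : ℕ) (c : L) : Set P :=
  fex fun m : ℕ => fex fun A : Type =>
    fand (fground (m ≤ n)) (fand (LeAleph P m A) (CardLe (fun x => R x c) A))

/-- some upper bound of `a` and `b` has a principal ideal of size at most `ℵ_n` -/
def D (R : L → L → Set P) (n : ℕ) (a b : L) : Set P :=
  fex fun c : L => fand (meets (R a c)) (fand (meets (R b c)) (Rk R n c))

/-- `x` is below all upper bounds of `a` and `b` -/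
def UB (R : L → L → Set P) (q : P) (x a b : L) : Prop :=
  ∀ c, ∀ s ≤ q, s ∈ meets (R a c) → s ∈ meets (R b c) → s ∈ meets (R x c)

theorem UB.mono {R : L → L → Set P} {q r : P} {x a b : L} (h : UB R q x a b) (hr : r ≤ q) :
    UB R r x a b := fun c s hs => h c s (hs.trans hr)

theorem UB.symm {R : L → L → Set P} {q : P} {x a b : L} (h : UB R q x a b) :
    UB R q x b a := fun c s hs h1 h2 => h c s hs h2 h1

theorem down_Rk (R : L → L → Set P) (n : ℕ) (c : L) : Down (Rk R n c) := down_fex _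

theorem down_D (R : L → L → Set P) (n : ℕ) (a b : L) : Down (D R n a b) := down_fex _

theorem Rk_mono {R : L → L → Set P} {m n : ℕ} (hmn : m ≤ n) {c : L} {p : P} (h : p ∈ Rk R m c) :
    p ∈ Rk R n c := by
  refine mem_fex.2 fun q hq => ?_
  obtain ⟨r, hr, k, hk⟩ := mem_fex.1 h q hq
  obtain ⟨r', hr', A, hA⟩ := mem_fex.1 hk r le_rfl
  refine ⟨r', hr'.trans hr, k, ?_⟩
  refine mem_fex_of_mem A ?_ ⟨le_trans hA.1 hmn, hA.2⟩
  exact down_fand (down_fground _) (down_fand (down_LeAleph _ _) (down_CardLe _))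

theorem D_mono {R : L → L → Set P} {m n : ℕ} (hmn : m ≤ n) {a b : L} {p : P} (h : p ∈ D R m a b) :
    p ∈ D R n a b := by
  refine mem_fex.2 fun q hq => ?_
  obtain ⟨r, hr, c, hc⟩ := mem_fex.1 h q hq
  exact ⟨r, hr, c, hc.1, hc.2.1, Rk_mono hmn hc.2.2⟩

theorem D_symm {R : L → L → Set P} {n : ℕ} {a b : L} {p : P} (h : p ∈ D R n a b) :
    p ∈ D R n b a := by
  refine mem_fex.2 fun q hq => ?_
  obtain ⟨r, hr, c, hc⟩ := mem_fex.1 h q hq
  exact ⟨r, hr, c, hc.2.1, hc.1, hc.2.2⟩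

/-- if `a` is below all upper bounds of `b` and `w` -/
theorem D_of_UB {R : L → L → Set P} {n : ℕ} {a b w : L} {p : P} (h : p ∈ D R n b w)
    (hu : UB R p a b w) : p ∈ D R n a b := by
  refine mem_fex.2 fun q hq => ?_
  obtain ⟨r, hr, c, hc⟩ := mem_fex.1 h q hq
  exact ⟨r, hr, c, hu c r (hr.trans hq) hc.1 hc.2.1, hc.1, hc.2.2⟩

/-- What we use of the semilattice. -/
structure Hyp (R : L → L → Set P) (p₀ : P) : Prop where
  tri : ∀ q ≤ p₀, ∀ a b w, ∃ r ≤ q, UB R r w a b ∨ UB R r a b w ∨ UB R r b a w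
  ex : ∀ q ≤ p₀, ∀ a b, ∃ r ≤ q, ∃ n, r ∈ D R n a b

theorem Hyp.mono {R : L → L → Set P} {p₀ p : P} (h : Hyp R p₀) (hp : p ≤ p₀) : Hyp R p :=
  ⟨fun q hq => h.tri q (hq.trans hp), fun q hq => h.ex q (hq.trans hp)⟩

/-- `w` is not below the join of `a` and `b` -/
def Out (R : L → L → Set P) (p₀ : P) (w a b : L) : Prop := ∀ q ≤ p₀, ¬ UB R q w a b

/-- the second subadditivity -/
theorem Hyp.sub {R : L → L → Set P} {p₀ : P} (h : Hyp R p₀) {w a b : L} (hw : Out R p₀ w a b)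
    {n : ℕ} {p : P} (hp : p ≤ p₀) (ha : p ∈ D R n a w) (hb : p ∈ D R n b w) : p ∈ D R n a b := by
  refine fex_dense fun q hq => ?_
  obtain ⟨r, hr, h1 | h1 | h1⟩ := h.tri q (hq.trans hp) a b w
  · exact absurd h1 (hw r (hr.trans (hq.trans hp)))
  · exact ⟨r, hr, D_of_UB (down_D _ _ _ _ _ hb _ (hr.trans hq)) h1⟩
  · exact ⟨r, hr, D_symm (D_of_UB (down_D _ _ _ _ _ ha _ (hr.trans hq)) h1)⟩

open Classical in
theorem hyp_of {R : L → L → Set P} {p₀ : P} (h1 : p₀ ∈ IsJoinSemilattice R)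
    (h2 : p₀ ∈ BreadthAtMostTwo R)
    (h4 : ∀ a, ∀ r ≤ p₀, ∃ r' ≤ r, r' ∈ LtAlephOmega fun x => R x a) : Hyp R p₀ := by
  have htr : ∀ {r : P}, r ≤ p₀ → ∀ {x y z : L}, r ∈ meets (R x y) → r ∈ meets (R y z) →
      r ∈ meets (R x z) := by
    intro r hr x y z hxy hyz
    refine mp_meets (down_fand (down_meets _) (down_meets _)) ?_ ⟨hxy, hyz⟩
    exact down_fimp _ _ _ (h1.1.2.1 x y z) r hr
  have hfin : ∀ (X : Finset L) (w : L), Down (P := P)
      (fall fun x : L => fall fun _ : x ∈ X => meets (R x w)) :=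
    fun X w => down_fall fun _ => down_fall fun _ => down_meets _
  have hsup : ∀ {r : P} {X : Finset L} {z : L}, r ∈ IsSup R X z → ∀ s ≤ r, ∀ w,
      (∀ x ∈ X, s ∈ meets (R x w)) → s ∈ meets (R z w) := by
    intro r X z hr s hs w hw
    exact mp_meets (hfin X w) (down_fimp _ _ _ (hr.2 w) s hs) hw
  have hsup1 : ∀ {r : P} {X : Finset L} {z : L}, r ∈ IsSup R X z → ∀ s ≤ r, ∀ x ∈ X,
      s ∈ meets (R x z) := fun hr s hs x hx => down_meets _ _ (hr.1 x hx) s hs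
  have hj : ∀ q ≤ p₀, ∀ x y, ∃ r ≤ q, ∃ z, r ∈ IsSup R {x, y} z :=
    fun q hq x y => mem_fex.1 (h1.2 x y) q hq
  constructor
  · intro q hq a b w
    obtain ⟨r1, hr1, z1, hz1⟩ := hj q hq a b
    obtain ⟨r2, hr2, z, hz⟩ := hj r1 (hr1.trans hq) z1 w
    have hr2' : r2 ≤ p₀ := hr2.trans (hr1.trans hq)
    have hz1z : r2 ∈ meets (R z1 z) := hsup1 hz r2 le_rfl z1 (by simp)
    have hX : r2 ∈ IsSup R {a, b, w} z := by
      constructor
      · intro x hx
        simp only [Finset.mem_insert, Finset.mem_singleton] at hx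
        rcases hx with rfl | rfl | rfl
        · exact htr hr2' (hsup1 hz1 r2 hr2 _ (by simp)) hz1z
        · exact htr hr2' (hsup1 hz1 r2 hr2 _ (by simp)) hz1z
        · exact hsup1 hz r2 le_rfl _ (by simp)
      · intro c
        refine mem_fimp.2 fun s hs h => ⟨s, le_rfl, ?_⟩
        refine hsup hz s hs c ?_
        intro x hx
        simp only [Finset.mem_insert, Finset.mem_singleton] at hx
        rcases hx with rfl | rfl
        · refine hsup hz1 s (hs.trans hr2) c ?_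
          intro y hy
          refine h y ?_
          simp only [Finset.mem_insert, Finset.mem_singleton] at hy ⊢
          tauto
        · exact h _ (by simp)
    obtain ⟨r3, hr3, Y, ⟨hYne, hYX, hYc⟩, hY⟩ := mem_fex.1 (h2 {a, b, w} (by simp)) r2 hr2'
    obtain ⟨r4, hr4, hYz⟩ := mem_fimp.1 (hY z) r3 le_rfl
      ((down_fand (hfin _ _) (down_fall fun _ => down_fimp _ _)) _ hX r3 hr3)
    have hr4' : r4 ≤ r2 := hr4.trans hr3
    have hmain : ∀ x u v : L, x ∈ ({a, b, w} : Finset L) → Y ⊆ {u, v} → UB R r4 x u v := by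
      intro x u v hx hYu c s hs hu hv
      have e1 : s ∈ meets (R z c) := by
        refine hsup hYz s hs c fun y hy => ?_
        have := hYu hy
        simp only [Finset.mem_insert, Finset.mem_singleton] at this
        rcases this with rfl | rfl
        · exact hu
        · exact hv
      have e2 : s ∈ meets (R x z) := hsup1 hX s (hs.trans hr4') x hx
      exact htr ((hs.trans hr4').trans hr2') e2 e1
    refine ⟨r4, hr4'.trans (hr2.trans hr1), ?_⟩
    by_cases c1 : Y ⊆ {a, b}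
    · left; exact hmain w a b (by simp) c1
    by_cases c2 : Y ⊆ {b, w}
    · right; left; exact hmain a b w (by simp) c2
    by_cases c3 : Y ⊆ {a, w}
    · right; right; exact hmain b a w (by simp) c3
    exfalso
    have k : ∀ u v t : L, (∀ y ∈ ({a, b, w} : Finset L), y = u ∨ y = v ∨ y = t) →
        ¬ Y ⊆ {u, v} → t ∈ Y ∧ t ≠ u ∧ t ≠ v := by
      intro u v t hall hn
      rw [Finset.not_subset] at hn
      obtain ⟨y, hy, hyn⟩ := hn
      simp only [Finset.mem_insert, Finset.mem_singleton, not_or] at hyn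
      rcases hall y (hYX hy) with h | h | h
      · exact absurd h hyn.1
      · exact absurd h hyn.2
      · subst h; exact ⟨hy, hyn.1, hyn.2⟩
    obtain ⟨k1, k2, k3⟩ := k a b w (by simp) c1
    obtain ⟨k4, k5, k6⟩ := k b w a (by simp) c2
    obtain ⟨k7, k8, k9⟩ := k a w b (by simp) c3
    have hsub : ({a, b, w} : Finset L) ⊆ Y := by
      intro t ht
      simp only [Finset.mem_insert, Finset.mem_singleton] at ht
      rcases ht with rfl | rfl | rfl <;> assumption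
    have hc := Finset.card_le_card hsub
    have hc3 : ({a, b, w} : Finset L).card = 3 :=
      Finset.card_eq_three.2 ⟨a, b, w, k5, k6, k9, rfl⟩
    omega
  · intro q hq a b
    obtain ⟨r1, hr1, z, hz⟩ := hj q hq a b
    obtain ⟨r2, hr2, h⟩ := h4 z r1 (hr1.trans hq)
    obtain ⟨r3, hr3, m, hm⟩ := mem_fex.1 h r2 le_rfl
    obtain ⟨r4, hr4, A, hA⟩ := mem_fex.1 hm r3 le_rfl
    have hr : r4 ≤ r1 := hr4.trans (hr3.trans hr2)
    refine ⟨r4, hr.trans hr1, m, ?_⟩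
    refine mem_fex_of_mem z ?_ ⟨hsup1 hz _ hr _ (by simp), hsup1 hz _ hr _ (by simp), ?_⟩
    · exact down_fand (down_meets _) (down_fand (down_meets _) (down_Rk _ _ _))
    · refine mem_fex_of_mem m (down_fex _) (mem_fex_of_mem A ?_ ⟨le_refl m, hA⟩)
      exact down_fand (down_fground _) (down_fand (down_LeAleph _ _) (down_CardLe _))

/-! ### Covers -/

theorem cov_aux {κ μ : Cardinal.{0}} (hκ : ℵ₀ ≤ κ) (hP : #P ≤ κ) (hμ : κ ≤ μ)
    {R : L → L → Set P} {q₀ : P} {a b : L}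
    (h : ∀ q ≤ q₀, ∃ r ≤ q, ∃ (c : L) (m : ℕ) (A : Type), Kc κ m ≤ μ ∧ r ∈ meets (R a c) ∧
      r ∈ meets (R b c) ∧ r ∈ LeAleph P m A ∧ r ∈ CardLe (fun x => R x c) A) :
    #{x | ∃ q ≤ q₀, UB R q x a b} ≤ μ := by
  classical
  have hμμ : μ * μ = μ := mul_eq_self (hκ.trans hμ)
  let Good : P → L → Prop := fun r c => ∃ (m : ℕ) (A : Type), Kc κ m ≤ μ ∧ r ∈ meets (R a c) ∧
      r ∈ meets (R b c) ∧ r ∈ LeAleph P m A ∧ r ∈ CardLe (fun x => R x c) A
  let S : P → Set L := fun r =>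
    if h : ∃ c, Good r c then {x | ∃ s ≤ r, s ∈ meets (R x h.choose)} else ∅
  have hS : ∀ r, #(S r) ≤ μ := by
    intro r
    by_cases h : ∃ c, Good r c
    · have e : S r = {x | ∃ s ≤ r, s ∈ meets (R x h.choose)} := dif_pos h
      rw [e]
      obtain ⟨m, A, h1, -, -, h2, h3⟩ := h.choose_spec
      refine (cover h3).trans ?_
      have h4 := leAleph_bound hκ hP m A r h2
      calc #P * #P * #A ≤ μ * μ * μ :=
            mul_le_mul' (mul_le_mul' (hP.trans hμ) (hP.trans hμ)) (h4.trans h1)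
        _ = μ := by rw [hμμ, hμμ]
    · have e : S r = ∅ := dif_neg h
      rw [e]
      simp
  have hsub : {x | ∃ q ≤ q₀, UB R q x a b} ⊆ ⋃ r, S r := by
    rintro x ⟨q, hq, hx⟩
    obtain ⟨r, hr, c, hc⟩ := h q hq
    have hg : ∃ c, Good r c := ⟨c, hc⟩
    have e : S r = {x | ∃ s ≤ r, s ∈ meets (R x hg.choose)} := dif_pos hg
    refine mem_iUnion.2 ⟨r, ?_⟩
    rw [e]
    obtain ⟨m, A, -, h2, h3, -⟩ := hg.choose_spec
    exact ⟨r, le_rfl, hx _ r hr h2 h3⟩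
  refine (mk_le_mk_of_subset hsub).trans (mk_iUnion_le_sum_mk.trans ?_)
  calc Cardinal.sum (fun r => #(S r)) ≤ Cardinal.sum (fun _ : P => μ) := sum_le_sum _ _ hS
    _ = #P * μ := by simp
    _ ≤ μ * μ := mul_le_mul' (hP.trans hμ) le_rfl
    _ = μ := hμμ

theorem cov_D {κ : Cardinal.{0}} (hκ : ℵ₀ ≤ κ) (hP : #P ≤ κ) {R : L → L → Set P} {q₀ : P} {a b : L}
    {M : ℕ} (h : q₀ ∈ D R M a b) : #{x | ∃ q ≤ q₀, UB R q x a b} ≤ Kc κ M := by
  refine cov_aux hκ hP (le_Kc κ M) fun q hq => ?_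
  obtain ⟨r, hr, c, hc1, hc2, hc3⟩ := mem_fex.1 h q hq
  obtain ⟨r1, hr1, m, hm⟩ := mem_fex.1 hc3 r le_rfl
  obtain ⟨r2, hr2, A, hA1, hA2, hA3⟩ := mem_fex.1 hm r1 le_rfl
  have h2 : r2 ≤ r := hr2.trans hr1
  exact ⟨r2, h2.trans hr, c, m, A, Kc_mono κ hA1, down_meets _ _ hc1 _ h2,
    down_meets _ _ hc2 _ h2, hA2, hA3⟩

theorem Hyp.cov {κ : Cardinal.{0}} (hκ : ℵ₀ ≤ κ) (hP : #P ≤ κ) {R : L → L → Set P} {p₀ : P}
    (hR : Hyp R p₀) (a b : L) : #{x | ∃ q ≤ p₀, UB R q x a b} ≤ Lc κ := by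
  refine cov_aux hκ hP (Kc_le_Lc κ 0) fun q hq => ?_
  obtain ⟨r0, hr0, n, hn⟩ := hR.ex q hq a b
  obtain ⟨r, hr, c, hc1, hc2, hc3⟩ := mem_fex.1 hn r0 le_rfl
  obtain ⟨r1, hr1, m, hm⟩ := mem_fex.1 hc3 r le_rfl
  obtain ⟨r2, hr2, A, hA1, hA2, hA3⟩ := mem_fex.1 hm r1 le_rfl
  have h2 : r2 ≤ r := hr2.trans hr1
  exact ⟨r2, h2.trans (hr.trans hr0), c, m, A, Kc_le_Lc κ m, down_meets _ _ hc1 _ h2,
    down_meets _ _ hc2 _ h2, hA2, hA3⟩

/-- avoiding few small sets -/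
theorem exists_out {μ : Cardinal.{0}} (hμ : ℵ₀ ≤ μ) {I : Set L} (hI : #I ≤ μ) {C : L → L → Set L}
    (hC : ∀ a ∈ I, ∀ b ∈ I, #(C a b) ≤ μ) {T : Set L} (hT : μ < #T) :
    ∃ w ∈ T, ∀ a ∈ I, ∀ b ∈ I, w ∉ C a b := by
  by_contra hcon
  push Not at hcon
  have hsub : T ⊆ ⋃ t : I × I, C t.1.1 t.2.1 := by
    intro w hw
    obtain ⟨a, ha, b, hb, h⟩ := hcon w hw
    exact mem_iUnion.2 ⟨(⟨a, ha⟩, ⟨b, hb⟩), h⟩
  have h1 : #T ≤ μ := by
    refine (mk_le_mk_of_subset hsub).trans (mk_iUnion_le_sum_mk.trans ?_)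
    calc Cardinal.sum (fun t : I × I => #(C t.1.1 t.2.1)) ≤ Cardinal.sum (fun _ : I × I => μ) :=
          sum_le_sum _ _ fun t => hC _ t.1.2 _ t.2.2
      _ = #I * #I * μ := by simp
      _ ≤ μ * μ * μ := mul_le_mul' (mul_le_mul' hI hI) le_rfl
      _ = μ := by rw [mul_eq_self hμ, mul_eq_self hμ]
  exact absurd h1 (not_le.2 hT)

end

end Pool.Agent.TH779.DT
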