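import Mathlib
import Pool.Agent.TH779.DT.Sem

/-!
# The splitting argument
-/

set_option autoImplicit false

namespace Pool.Agent.TH779.DT

open Cardinal Set Pool.Agent.Helper669.Forcing Pool.Agent.W910.LC

theorem dep_choice {S : Type*} (Inv : ℕ → S → Prop) (Rel : ℕ → S → S → Prop) (s0 : S)
    (h0 : Inv 0 s0) (h : ∀ n s, Inv n s → ∃ s', Inv (n + 1) s' ∧ Rel n s s') :
    ∃ f : ℕ → S, f 0 = s0 ∧ (∀ n, Inv n (f n)) ∧ ∀ n, Rel n (f n) (f (n + 1)) := by
  choose! g hg1 hg2 using h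
  let f : ℕ → S := fun n => Nat.rec s0 (fun n s => g n s) n
  have hf : ∀ n, Inv n (f n) := by
    intro n
    induction n with
    | zero => exact h0
    | succ n ih => exact hg1 n (f n) ih
  exact ⟨f, rfl, hf, fun n => hg2 n (f n) (hf n)⟩

/-- the initial segments of a branch -/
def seg (y : ℕ → Bool) : ℕ → List Bool
  | 0 => []
  | n + 1 => y n :: seg y n

theorem length_seg (y : ℕ → Bool) (n : ℕ) : (seg y n).length = n := by
  induction n with
  | zero => rfl
  | succ n ih => simp [seg, ih]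

/-- the limit of a chain of finite sequences -/
theorem exists_branch (s : ℕ → List Bool) (h1 : ∀ n, s n <:+ s (n + 1)) (h2 : ∀ n, n ≤ (s n).length) :
    ∃ y : ℕ → Bool, ∀ m, seg y (s m).length = s m := by
  have hmono : ∀ m n, m ≤ n → (s m).reverse <+: (s n).reverse := by
    intro m n hmn
    induction n, hmn using Nat.le_induction with
    | base => exact List.prefix_refl _
    | succ n _ ih => exact ih.trans (List.reverse_prefix.2 (h1 n))
  let y : ℕ → Bool := fun n => (s (n + 1)).reverse.getD n false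
  have hy : ∀ m k, ∀ hk : k < (s m).reverse.length, y k = (s m).reverse[k] := by
    intro m k hk
    have hk' : k < (s (k + 1)).reverse.length := by
      rw [List.length_reverse]; exact h2 (k + 1)
    have e1 : y k = (s (k + 1)).reverse[k] := by
      simp only [y]
      rw [List.getD_eq_getElem _ _ hk']
    rw [e1]
    rcases le_total (k + 1) m with h | h
    · exact (hmono _ _ h).getElem hk'
    · exact ((hmono _ _ h).getElem hk).symm
  refine ⟨y, fun m => ?_⟩
  have key : ∀ k ≤ (s m).reverse.length, (seg y k).reverse = (s m).reverse.take k := by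
    intro k
    induction k with
    | zero => intro _; rfl
    | succ k ih =>
      intro hk
      rw [seg, List.reverse_cons, ih (by omega), hy m k (by omega),
        List.take_append_getElem]
  have h3 := key (s m).reverse.length le_rfl
  rw [List.take_length, List.length_reverse] at h3
  exact List.reverse_injective h3

theorem fnot_mono {P : Type} [Preorder P] {φ : Set P} {p q : P} (h : p ∈ fnot φ) (hq : q ≤ p) :
    q ∈ fnot φ := down_fnot _ _ h _ hq

section

variable {κ : Cardinal.{0}} {L : Type}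

theorem res_mono (α : κ.ord.ToType) {p q : Col κ} (h : p ≤ q) :
    res α p ≤ res α q := fun _ ht => ⟨h ht.1, ht.2⟩

theorem le_res (α : κ.ord.ToType) (p : Col κ) : p ≤ res α p := fun _ ht => ht.1

theorem bel_res (α : κ.ord.ToType) (p : Col κ) : Bel α (res α p) := fun _ ht => ht.2

/-- common extension -/
theorem amal' {α : κ.ord.ToType} {q u : Col κ} (hq : Bel α q) (hqu : q ≤ res α u) :
    ∃ w : Col κ, w ≤ q ∧ w ≤ u ∧ res α w ≤ q ∧ q ≤ res α w := by
  obtain ⟨w, -, h⟩ := T_L1.amal κ α q u hq hqu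
  exact ⟨w, h⟩

variable {R : L → L → Set (Col κ)} {p₀ : Col κ} {α : κ.ord.ToType} {X : Set L} {z : L}

/-- the part below `α` decides -/
theorem part (h3 : ∀ a ∈ X, ∀ b ∈ X, ∀ n q, Bel α q →
      ∃ q' ≤ q, Bel α q' ∧ (q' ∈ D R n a b ∨ q' ∈ fnot (D R n a b)))
    {a b : L} (ha : a ∈ X) (hb : b ∈ X) {n : ℕ} {v q : Col κ} (hv : v ∈ D R n a b)
    (hq : Bel α q) (hqv : q ≤ res α v) : ∃ q' ≤ q, Bel α q' ∧ q' ∈ D R n a b := by
  obtain ⟨q', hq', hB, h | h⟩ := h3 a ha b hb n q hq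
  · exact ⟨q', hq', hB, h⟩
  · obtain ⟨w, hw1, hw2, -, -⟩ := amal' hB (hq'.trans hqv)
    exact absurd (down_D _ _ _ _ _ hv w hw2) (h w hw1)

/-- The splitting argument. -/
theorem split (hR : Hyp R p₀) (hp₀ : Bel α p₀) (hX : X.Nonempty)
    (h3 : ∀ a ∈ X, ∀ b ∈ X, ∀ n q, Bel α q →
      ∃ q' ≤ q, Bel α q' ∧ (q' ∈ D R n a b ∨ q' ∈ fnot (D R n a b)))
    (h4 : ∀ i : ℕ → L, (∀ n, i n ∈ X) → ∃ w ∈ X, ∀ n m, Out R p₀ w (i n) (i m))
    (h5 : ∀ a ∈ X, ∀ b ∈ X, Out R p₀ z a b) :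
    ∃ (q v : Col κ) (k : ℕ), Bel α q ∧ q ≤ p₀ ∧ v ≤ p₀ ∧ q ≤ res α v ∧
      ∀ q' ≤ q, Bel α q' → ∀ v0 ≤ v, ∀ v1 ≤ v, q' ≤ res α v0 → q' ≤ res α v1 →
        ∀ i0 ∈ X, ∀ i1 ∈ X, ∀ m0 m1, v0 ∈ D R m0 i0 z → v1 ∈ D R m1 i1 z →
          q' ∉ fnot (D R (max (max m0 m1) k) i0 i1) := by
  classical
  by_contra hcon
  push Not at hcon
  -- one level
  have step : ∀ (k : ℕ) (V : List Bool → Col κ) (T : Finset (List Bool)) (q : Col κ), Bel α q →
      q ≤ p₀ → (∀ s ∈ T, V s ≤ p₀ ∧ q ≤ res α (V s)) →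
      ∃ q' ≤ q, Bel α q' ∧ ∃ (W : List Bool → Bool → Col κ) (I : List Bool → Bool → L)
        (M : List Bool → Bool → ℕ), ∀ s ∈ T,
          (∀ b, W s b ≤ V s ∧ q' ≤ res α (W s b) ∧ I s b ∈ X ∧ W s b ∈ D R (M s b) (I s b) z) ∧
          q' ∈ fnot (D R (max (max (M s false) (M s true)) k) (I s false) (I s true)) := by
    intro k V T
    induction T using Finset.induction_on with
    | empty =>
      intro q hq _ _
      exact ⟨q, le_rfl, hq, fun _ _ => p₀, fun _ _ => hX.some, fun _ _ => 0, by simp⟩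
    | insert s T hs ih =>
      intro q hq hq0 hV
      obtain ⟨q1, hq1, hB1, W, I, M, hW⟩ := ih q hq hq0 fun t ht =>
        hV t (Finset.mem_insert_of_mem ht)
      obtain ⟨hVs, hqs⟩ := hV s (Finset.mem_insert_self _ _)
      obtain ⟨q2, hq2, hB2, v0, hv0, v1, hv1, hr0, hr1, i0, hi0, i1, hi1, m0, m1, hd0, hd1, hn⟩ :=
        hcon q1 (V s) k hB1 (hq1.trans hq0) hVs (hq1.trans hqs)
      refine ⟨q2, hq2.trans hq1, hB2, Function.update W s (fun b => cond b v1 v0),
        Function.update I s (fun b => cond b i1 i0), Function.update M s (fun b => cond b m1 m0),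
        ?_⟩
      intro t ht
      rcases Finset.mem_insert.1 ht with rfl | ht'
      · simp only [Function.update_self]
        refine ⟨?_, hn⟩
        intro b
        cases b
        · exact ⟨hv0, hr0, hi0, hd0⟩
        · exact ⟨hv1, hr1, hi1, hd1⟩
      · have hts : t ≠ s := fun h => hs (h ▸ ht')
        simp only [Function.update_of_ne hts]
        obtain ⟨k1, k2⟩ := hW t ht'
        exact ⟨fun b => ⟨(k1 b).1, hq2.trans (k1 b).2.1, (k1 b).2.2⟩, fnot_mono k2 hq2⟩
  -- the tree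
  obtain ⟨f, hf0, hf1, hf2⟩ := dep_choice
    (S := Col κ × (List Bool → Col κ) × (List Bool → Bool → L) × (List Bool → Bool → ℕ))
    (fun n t => Bel α t.1 ∧ t.1 ≤ p₀ ∧ ∀ s : List Bool, s.length = n → t.2.1 s ≤ p₀ ∧
      t.1 ≤ res α (t.2.1 s))
    (fun n t t' => t'.1 ≤ t.1 ∧ ∀ s : List Bool, s.length = n →
      (∀ b, t'.2.1 (b :: s) ≤ t.2.1 s ∧ t'.2.2.1 s b ∈ X ∧
        t'.2.1 (b :: s) ∈ D R (t'.2.2.2 s b) (t'.2.2.1 s b) z) ∧
      t'.1 ∈ fnot (D R (max (max (t'.2.2.2 s false) (t'.2.2.2 s true)) n) (t'.2.2.1 s false)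
        (t'.2.2.1 s true)))
    (p₀, (fun _ => p₀), (fun _ _ => hX.some), fun _ _ => 0)
    ⟨hp₀, le_rfl, fun _ _ => ⟨le_rfl, le_res α p₀⟩⟩
    (by
      rintro n ⟨q, V, I, M⟩ ⟨i1, i2, i3⟩
      have hfin : {l : List Bool | l.length = n}.Finite := List.finite_length_eq Bool n
      obtain ⟨q', hq', hB', W, I', M', h⟩ := step n V hfin.toFinset q i1 i2 (fun s hs => by
        rw [Set.Finite.mem_toFinset] at hs
        exact i3 s hs)
      refine ⟨(q', (fun s => match s with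
        | [] => p₀
        | b :: s => W s b), I', M'), ⟨hB', hq'.trans i2, ?_⟩, hq', ?_⟩
      · intro s hs
        cases s with
        | nil => simp at hs
        | cons b s =>
          have hs' : s.length = n := by simpa using hs
          obtain ⟨k1, k2⟩ := h s (by rw [Set.Finite.mem_toFinset]; exact hs')
          exact ⟨(k1 b).1.trans (i3 s hs').1, (k1 b).2.1⟩
      · intro s hs
        obtain ⟨k1, k2⟩ := h s (by rw [Set.Finite.mem_toFinset]; exact hs)
        exact ⟨fun b => ⟨(k1 b).1, (k1 b).2.2.1, (k1 b).2.2.2⟩, k2⟩)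
  -- abbreviations
  set q : ℕ → Col κ := fun n => (f n).1 with hqdef
  set V : ℕ → List Bool → Col κ := fun n => (f n).2.1 with hVdef
  set I : List Bool → Bool → L := fun s => (f (s.length + 1)).2.2.1 s with hIdef
  set M : List Bool → Bool → ℕ := fun s => (f (s.length + 1)).2.2.2 s with hMdef
  have hq1 : ∀ n, q (n + 1) ≤ q n := fun n => (hf2 n).1
  have hI : ∀ s b, I s b ∈ X := fun s b => (((hf2 s.length).2 s rfl).1 b).2.1
  have hV1 : ∀ (s : List Bool) b, V (s.length + 1) (b :: s) ≤ V s.length s :=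
    fun s b => (((hf2 s.length).2 s rfl).1 b).1
  have hVD : ∀ (s : List Bool) b, V (s.length + 1) (b :: s) ∈ D R (M s b) (I s b) z :=
    fun s b => (((hf2 s.length).2 s rfl).1 b).2.2
  have hqn : ∀ s : List Bool, q (s.length + 1) ∈
      fnot (D R (max (max (M s false) (M s true)) s.length) (I s false) (I s true)) :=
    fun s => ((hf2 s.length).2 s rfl).2
  -- limits
  have hVseg : ∀ y n, V (n + 1) (seg y (n + 1)) ≤ V n (seg y n) := by
    intro y n
    have := hV1 (seg y n) (y n)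
    rwa [length_seg] at this
  have hvy : ∀ y, ∃ v : Col κ, v.carrier = ⋃ n, (V n (seg y n)).carrier :=
    fun y => T_L1.sigma κ _ (hVseg y)
  choose vy hvy using hvy
  have hvyle : ∀ y n, vy y ≤ V n (seg y n) := by
    intro y n t ht
    rw [hvy]
    exact mem_iUnion.2 ⟨n, ht⟩
  obtain ⟨qi, hqi⟩ := T_L1.sigma κ q hq1
  have hqile : ∀ n, qi ≤ q n := by
    intro n t ht
    rw [hqi]
    exact mem_iUnion.2 ⟨n, ht⟩
  have hqiB : Bel α qi := by
    intro t ht
    rw [hqi] at ht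
    obtain ⟨n, hn⟩ := mem_iUnion.1 ht
    exact (hf1 n).1 t hn
  have hqiv : ∀ y, qi ≤ res α (vy y) := by
    intro y t ht
    have h1 := ht.1
    rw [hvy] at h1
    obtain ⟨n, hn⟩ := mem_iUnion.1 h1
    exact hqile n (((hf1 n).2.2 (seg y n) (length_seg y n)).2 ⟨hn, ht.2⟩)
  have hqip : qi ≤ p₀ := (hqile 0).trans (hf1 0).2.1
  have hvyp : ∀ y, vy y ≤ p₀ := fun y => (hvyle y 0).trans ((hf1 0).2.2 _ rfl).1
  -- the element `w`
  obtain ⟨e, he⟩ := exists_surjective_nat (List Bool × Bool)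
  obtain ⟨w, hwX, hw⟩ := h4 (fun n => I (e n).1 (e n).2) (fun n => hI _ _)
  have hw' : ∀ s b s' b', Out R p₀ w (I s b) (I s' b') := by
    intro s b s' b'
    obtain ⟨n, hn⟩ := he (s, b)
    obtain ⟨m, hm⟩ := he (s', b')
    have := hw n m
    rw [hn, hm] at this
    exact this
  -- the category argument
  let Gd : List Bool → ℕ → Col κ → Prop := fun s m q => ∀ q' ≤ q, Bel α q' → ∀ y,
    seg y s.length = s → ∀ v ≤ vy y, v ∈ D R m w z → ¬ q' ≤ res α v
  have claim : ∃ (s : List Bool) (m : ℕ) (q : Col κ), m ≤ s.length ∧ Bel α q ∧ q ≤ qi ∧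
      ∀ s' q', s <:+ s' → q' ≤ q → Bel α q' → ¬ Gd s' m q' := by
    by_contra hc
    push Not at hc
    obtain ⟨g, hg0, hg1, hg2⟩ := dep_choice (S := List Bool × Col κ)
      (fun n t => n ≤ t.1.length ∧ Bel α t.2 ∧ t.2 ≤ qi)
      (fun n t t' => t.1 <:+ t'.1 ∧ t'.2 ≤ t.2 ∧ Gd t'.1 n t'.2)
      ([], qi) ⟨le_rfl, hqiB, le_rfl⟩
      (by
        rintro n ⟨s, r⟩ ⟨i1, i2, i3⟩
        obtain ⟨s', q', j1, j2, j3, j4⟩ := hc s n r i1 i2 i3
        refine ⟨(false :: s', q'), ⟨?_, j3, j2.trans i3⟩, j1.trans (List.suffix_cons _ _), j2, ?_⟩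
        · have := j1.length_le
          simp only [List.length_cons]
          simp only at i1
          omega
        · intro q'' hq'' hB'' y hy v hv hvD
          refine j4 q'' hq'' hB'' y ?_ v hv hvD
          simp only [List.length_cons, seg] at hy
          exact (List.cons.inj hy).2)
    obtain ⟨y, hy⟩ := exists_branch (fun n => (g n).1) (fun n => (hg2 n).1) (fun n => (hg1 n).1)
    obtain ⟨r, hr⟩ := T_L1.sigma κ (fun n => (g n).2) (fun n => (hg2 n).2.1)
    have hrle : ∀ n, r ≤ (g n).2 := by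
      intro n t ht
      rw [hr]
      exact mem_iUnion.2 ⟨n, ht⟩
    have hrB : Bel α r := by
      intro t ht
      rw [hr] at ht
      obtain ⟨n, hn⟩ := mem_iUnion.1 ht
      exact (hg1 n).2.1 t hn
    have hrqi : r ≤ qi := (hrle 0).trans (hg1 0).2.2
    obtain ⟨u, hu1, hu2, hu3, hu4⟩ := amal' hrB (hrqi.trans (hqiv y))
    obtain ⟨v, hv, m, hvD⟩ := hR.ex u (hu2.trans (hvyp y)) w z
    refine (hg2 m).2.2 (res α v) ?_ (bel_res α v) y (hy (m + 1)) v (hv.trans hu2) hvD le_rfl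
    exact (res_mono α hv).trans (hu3.trans (hrle (m + 1)))
  obtain ⟨s, m, r, hsm, hrB, hrqi, hgd⟩ := claim
  have hg1 := hgd (false :: s) r (List.suffix_cons _ _) le_rfl hrB
  simp only [Gd] at hg1
  push Not at hg1
  obtain ⟨r1, hr1, hB1, y1, hy1, v1, hv1, hv1D, hr1v⟩ := hg1
  have hg2 := hgd (true :: s) r1 (List.suffix_cons _ _) hr1 hB1
  simp only [Gd] at hg2
  push Not at hg2
  obtain ⟨r2, hr2, hB2, y2, hy2, v2, hv2, hv2D, hr2v⟩ := hg2
  have k1 : v1 ∈ D R (M s false) (I s false) z := by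
    refine down_D _ _ _ _ _ (hVD s false) v1 (hv1.trans ?_)
    have := hvyle y1 (s.length + 1)
    rwa [show seg y1 (s.length + 1) = false :: s from hy1] at this
  have k2 : v2 ∈ D R (M s true) (I s true) z := by
    refine down_D _ _ _ _ _ (hVD s true) v2 (hv2.trans ?_)
    have := hvyle y2 (s.length + 1)
    rwa [show seg y2 (s.length + 1) = true :: s from hy2] at this
  set N : ℕ := max (max (M s false) (M s true)) s.length with hN
  have hv1p : v1 ≤ p₀ := hv1.trans (hvyp y1)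
  have hv2p : v2 ≤ p₀ := hv2.trans (hvyp y2)
  have hMN1 : M s false ≤ N := (le_max_left _ _).trans (le_max_left _ _)
  have hMN2 : M s true ≤ N := (le_max_right _ _).trans (le_max_left _ _)
  have hmN : m ≤ N := hsm.trans (le_max_right _ _)
  have l1 : v1 ∈ D R N (I s false) w :=
    hR.sub (h5 _ (hI _ _) _ hwX) hv1p (D_mono hMN1 k1) (D_mono hmN hv1D)
  have l2 : v2 ∈ D R N (I s true) w :=
    hR.sub (h5 _ (hI _ _) _ hwX) hv2p (D_mono hMN2 k2) (D_mono hmN hv2D)
  obtain ⟨r3, hr3, hB3, hD3⟩ := part h3 (hI s false) hwX l1 hB2 (hr2.trans hr1v)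
  obtain ⟨r4, hr4, hB4, hD4⟩ := part h3 (hI s true) hwX l2 hB3 (hr3.trans hr2v)
  have hr4r : r4 ≤ r := hr4.trans (hr3.trans (hr2.trans hr1))
  have l3 : r4 ∈ D R N (I s false) (I s true) :=
    hR.sub (hw' _ _ _ _) (hr4r.trans (hrqi.trans hqip)) (down_D _ _ _ _ _ hD3 _ hr4) hD4
  exact hqn s r4 (hr4r.trans (hrqi.trans (hqile _))) l3

end

end Pool.Agent.TH779.DT
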