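import Mathlib
import Pool.Agent.TH779.DT.Tree

/-!
# After the Levy collapse of a supercompact cardinal to `ω₂` there are no join-semilattices of
breadth two and size `ℵ_(ω+1)` with principal ideals of size less than `ℵ_ω`
-/

set_option autoImplicit false

namespace Pool.Agent.TH779.DT

open Cardinal Set Pool.Agent.Helper669.Forcing Pool.Agent.W910.LC

section

variable {κ : Cardinal.{0}} {L : Type}

/-- The last part of the argument. -/
theorem final (hκ : κ.IsInaccessible) {R : L → L → Set (Col κ)} {p₀ : Col κ} (hR : Hyp R p₀)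
    (hL : Lc κ < #L) (f : L → Col κ × ℕ) (k : ℕ) (hf0 : ∀ i, (f i).1 ≤ p₀)
    (hf : ∀ i j, (f i).1 = (f j).1 →
      (f i).1 ∈ D R (max (max (f i).2 (f j).2) k) i j) : False := by
  have hω : ℵ₀ ≤ κ := hκ.1.le
  have hP : #(Col κ) ≤ κ := mk_col hκ
  have hLc : ℵ₀ ≤ Lc κ := hω.trans (Kc_le_Lc κ 0)
  have hreg : (Order.succ (Lc κ)).IsRegular := isRegular_succ hLc
  have hcard : #(Col κ × ℕ) < (Order.succ (Lc κ)).ord.cof := by
    rw [hreg.cof_ord, mk_prod]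
    simp only [lift_id, mk_nat]
    calc #(Col κ) * ℵ₀ ≤ κ * κ := mul_le_mul' hP hω
      _ = κ := mul_eq_self hω
      _ ≤ Lc κ := Kc_le_Lc κ 0
      _ < Order.succ (Lc κ) := Order.lt_succ _
  obtain ⟨⟨q, m⟩, hq⟩ := infinite_pigeonhole_card f (Order.succ (Lc κ)) (Order.succ_le_of_lt hL)
    (hLc.trans (Order.le_succ _)) hcard
  set L1 : Set L := f ⁻¹' {(q, m)} with hL1
  have hmem : ∀ i ∈ L1, f i = (q, m) := fun i hi => hi
  set M : ℕ := max m k with hM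
  have hD : ∀ i ∈ L1, ∀ j ∈ L1, q ∈ D R M i j := by
    intro i hi j hj
    have h := hf i j (by rw [hmem i hi, hmem j hj])
    rw [hmem i hi, hmem j hj] at h
    simpa [hM] using h
  have hbig : Kc κ (M + 2) < #L1 := (Kc_lt_Lc κ _).trans ((Order.lt_succ _).trans_le hq)
  obtain ⟨Y, hYL, hY⟩ := le_mk_iff_exists_subset.1 hbig.le
  have hL1ne : ∃ i, i ∈ L1 := by
    by_contra h
    push Not at h
    have : L1 = ∅ := eq_empty_of_forall_notMem h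
    rw [this] at hbig
    simp at hbig
  obtain ⟨i0, hi0⟩ := hL1ne
  have hqp : q ≤ p₀ := by
    have := hf0 i0
    rwa [hmem i0 hi0] at this
  have hKω : ∀ n, ℵ₀ ≤ Kc κ n := fun n => hω.trans (le_Kc κ n)
  obtain ⟨z, hzL, hz⟩ := exists_out (hKω (M + 2)) (I := Y) hY.le
    (C := fun a b => {x | ∃ r ≤ q, UB R r x a b})
    (fun a ha b hb => (cov_D hω hP (hD a (hYL ha) b (hYL hb))).trans (Kc_mono κ (by omega)))
    hbig
  have hRq : Hyp R q := hR.mono hqp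
  have hsmall : #Y ≤ Order.succ (Kc κ M) := by
    refine total_small (hKω M) (fun a b : Y => ∃ r ≤ q, UB R r a.1 b.1 z) ?_ ?_
    · intro a b
      obtain ⟨r, hr, h | h | h⟩ := hRq.tri q le_rfl a.1 b.1 z
      · exact absurd ⟨r, hr, h⟩ (hz a.1 a.2 b.1 b.2)
      · exact Or.inl ⟨r, hr, h⟩
      · exact Or.inr ⟨r, hr, h⟩
    · intro b
      refine le_trans ?_ (cov_D hω hP (hD b.1 (hYL b.2) z hzL))
      refine mk_le_of_injective (f := fun a => ⟨a.1.1, a.2⟩) ?_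
      intro a a' h
      have h' : a.1.1 = a'.1.1 := by simpa using h
      exact Subtype.ext (Subtype.ext h')
  rw [hY] at hsmall
  exact absurd hsmall (not_le.2 (Order.lt_succ (Kc κ (M + 1))))

theorem main (hκ : Supercompact κ) (p : Col κ) : p ∈ NoSemilattice (Col κ) := by
  classical
  intro L R
  refine mem_fimp.2 fun p₀ _ hp₀ => ?_
  by_contra hcon
  push Not at hcon
  obtain ⟨h1, h2, -, h3⟩ := hp₀
  have h4 : ∀ a, ∀ r ≤ p₀, ∃ r' ≤ r, r' ∈ LtAlephOmega fun x => R x a := by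
    intro a r hr
    by_contra h
    push Not at h
    exact hcon r hr (mem_fex_of_mem a (down_fnot _) h)
  have hR : Hyp R p₀ := hyp_of h1 h2 h4
  have hin : κ.IsInaccessible := hκ.1
  have hω : ℵ₀ ≤ κ := hin.1.le
  have hP : #(Col κ) ≤ κ := mk_col hin
  have hL : Lc κ < #L := by
    by_contra h
    exact h3 p₀ le_rfl (leAlephOmega (not_lt.1 h) p₀)
  have hLc : ℵ₀ ≤ Lc κ := hω.trans (Kc_le_Lc κ 0)
  obtain ⟨U, U1, U2, U3, U4, U5⟩ := T_L3.main κ hκ L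
  -- the elements `z x`
  have hz : ∀ x : Set (Col κ ⊕ L), ∃ z : L, #x < κ → ∀ a ∈ {a | Sum.inr a ∈ x},
      ∀ b ∈ {a | Sum.inr a ∈ x}, Out R p₀ z a b := by
    intro x
    by_cases hx : #x < κ
    · have hI : #{a : L | Sum.inr a ∈ x} ≤ Lc κ := by
        refine le_trans ?_ (hx.le.trans (Kc_le_Lc κ 0))
        refine mk_le_of_injective (f := fun a : {a : L | Sum.inr a ∈ x} => (⟨Sum.inr a.1, a.2⟩ : x)) ?_
        intro a b hab
        have := congrArg Subtype.val hab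
        exact Subtype.ext (Sum.inr_injective this)
      obtain ⟨z, -, hz⟩ := exists_out hLc hI (C := fun a b => {x | ∃ r ≤ p₀, UB R r x a b})
        (fun a _ b _ => hR.cov hω hP a b) (T := Set.univ) (by rwa [mk_univ])
      refine ⟨z, fun _ a ha b hb r hr hu => hz a ha b hb ⟨r, hr, hu⟩⟩
    · have : Nonempty L := by
        rw [← mk_ne_zero_iff]
        exact (lt_of_le_of_lt (zero_le) hL).ne'
      exact ⟨Classical.arbitrary L, fun h => absurd h hx⟩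
  choose z hz using hz
  obtain ⟨x0, α0, -⟩ := U5.exists
  have hα0 : ∀ x : Set (Col κ ⊕ L), ∃ α : κ.ord.ToType,
      (∃ α', ∀ p : Col κ, Sum.inl p ∈ x ↔ Bel α' p) → ∀ p : Col κ, Sum.inl p ∈ x ↔ Bel α p := by
    intro x
    by_cases h : ∃ α' : κ.ord.ToType, ∀ p : Col κ, Sum.inl p ∈ x ↔ Bel α' p
    · obtain ⟨α', h'⟩ := h
      exact ⟨α', fun _ => h'⟩
    · exact ⟨α0, fun h' => absurd h' h⟩
  choose α hα using hα0
  have E1 : ∀ᶠ x in (U : Filter (Set (Col κ ⊕ L))),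
      ∀ p : Col κ, Sum.inl p ∈ x ↔ Bel (α x) p := U5.mono fun x hx => hα x hx
  have E2 : ∀ q : Col κ, ∀ᶠ x in (U : Filter (Set (Col κ ⊕ L))), Bel (α x) q :=
    fun q => (E1.and (U3 (Sum.inl q))).mono fun x hx => (hx.1 q).1 hx.2
  -- functions to `ℕ`
  have Unat : ∀ g : Set (Col κ ⊕ L) → ℕ, ∃ n, ∀ᶠ x in (U : Filter (Set (Col κ ⊕ L))), g x = n := by
    intro g
    by_contra h
    push Not at h
    have h' : ∀ n, ∀ᶠ x in (U : Filter (Set (Col κ ⊕ L))), g x ≠ n := h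
    obtain ⟨x, hx⟩ := (U2 (fun n x => g x ≠ n) h').exists
    exact hx (g x) rfl
  -- normality
  have Ucol : ∀ g : Set (Col κ ⊕ L) → Col κ,
      (∀ᶠ x in (U : Filter (Set (Col κ ⊕ L))), Bel (α x) (g x)) →
      ∃ q, ∀ᶠ x in (U : Filter (Set (Col κ ⊕ L))), g x = q := by
    intro g hg
    obtain ⟨⟨q, t, v⟩, h⟩ := U4 (fun x => (g x, [], none)) (by
      filter_upwards [hg, E1] with x hx1 hx2
      exact ⟨(hx2 _).2 hx1, by simp, by simp⟩)
    exact ⟨q, h.mono fun x hx => congrArg Prod.fst hx⟩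
  have UL : ∀ g : Set (Col κ ⊕ L) → L,
      (∀ᶠ x in (U : Filter (Set (Col κ ⊕ L))), Sum.inr (g x) ∈ x) →
      ∃ a, ∀ᶠ x in (U : Filter (Set (Col κ ⊕ L))), g x = a := by
    intro g hg
    obtain ⟨⟨q, t, v⟩, h⟩ := U4 (fun x => (p₀, [], some (g x))) (by
      filter_upwards [hg, U3 (Sum.inl p₀)] with x hx1 hx2
      refine ⟨hx2, by simp, ?_⟩
      intro a ha
      have : g x = a := Option.some.inj ha
      rw [← this]
      exact hx1)
    cases v with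
    | none =>
      obtain ⟨x, hx⟩ := h.exists
      have := congrArg (fun t => t.2.2) hx
      simp at this
    | some a =>
      refine ⟨a, h.mono fun x hx => ?_⟩
      have := congrArg (fun t => t.2.2) hx
      exact Option.some.inj this
  -- deciding
  have E3 : ∀ᶠ x in (U : Filter (Set (Col κ ⊕ L))), ∀ a ∈ {a | Sum.inr a ∈ x},
      ∀ b ∈ {a | Sum.inr a ∈ x}, ∀ n q, Bel (α x) q →
      ∃ q' ≤ q, Bel (α x) q' ∧ (q' ∈ D R n a b ∨ q' ∈ fnot (D R n a b)) := by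
    by_contra hc
    rw [← Ultrafilter.eventually_not] at hc
    have hex : ∀ x : Set (Col κ ⊕ L), ∃ (a b : L) (n : ℕ) (q : Col κ),
        (¬ ∀ a ∈ {a | Sum.inr a ∈ x},
          ∀ b ∈ {a | Sum.inr a ∈ x}, ∀ n q, Bel (α x) q →
          ∃ q' ≤ q, Bel (α x) q' ∧ (q' ∈ D R n a b ∨ q' ∈ fnot (D R n a b))) →
        Sum.inr a ∈ x ∧ Sum.inr b ∈ x ∧ Bel (α x) q ∧
          ∀ q' ≤ q, Bel (α x) q' → ¬ (q' ∈ D R n a b ∨ q' ∈ fnot (D R n a b)) := by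
      intro x
      by_cases h : ∀ a ∈ {a | Sum.inr a ∈ x},
          ∀ b ∈ {a | Sum.inr a ∈ x}, ∀ n q, Bel (α x) q →
          ∃ q' ≤ q, Bel (α x) q' ∧ (q' ∈ D R n a b ∨ q' ∈ fnot (D R n a b))
      · exact ⟨z x, z x, 0, p₀, fun h' => absurd h h'⟩
      · have h' := h
        push Not at h'
        obtain ⟨a, ha, b, hb, n, q, hq, h''⟩ := h'
        exact ⟨a, b, n, q, fun _ => ⟨ha, hb, hq, fun q' hq' hB hh => by
          rcases hh with hh | hh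
          · exact (h'' q' hq' hB).1 hh
          · exact (h'' q' hq' hB).2 hh⟩⟩
    choose a b n q hex using hex
    have hc' : ∀ᶠ x in (U : Filter (Set (Col κ ⊕ L))), Sum.inr (a x) ∈ x ∧ Sum.inr (b x) ∈ x ∧
        Bel (α x) (q x) ∧ ∀ q' ≤ q x, Bel (α x) q' →
          ¬ (q' ∈ D R (n x) (a x) (b x) ∨ q' ∈ fnot (D R (n x) (a x) (b x))) :=
      hc.mono fun x hx => hex x hx
    obtain ⟨a', ha'⟩ := UL a (hc'.mono fun x hx => hx.1)
    obtain ⟨b', hb'⟩ := UL b (hc'.mono fun x hx => hx.2.1)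
    obtain ⟨q', hq'⟩ := Ucol q (hc'.mono fun x hx => hx.2.2.1)
    obtain ⟨n', hn'⟩ := Unat n
    have hdec : ∃ r ≤ q', r ∈ D R n' a' b' ∨ r ∈ fnot (D R n' a' b') := by
      by_cases h : q' ∈ fnot (D R n' a' b')
      · exact ⟨q', le_rfl, Or.inr h⟩
      · simp only [fnot, Set.mem_ofPred_eq] at h
        push Not at h
        obtain ⟨r, hr, hrD⟩ := h
        exact ⟨r, hr, Or.inl hrD⟩
    obtain ⟨r, hr, hrD⟩ := hdec
    obtain ⟨x, hx1, hx2, hx3, hx4, hx5, hx6⟩ :=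
      (hc'.and (ha'.and (hb'.and (hq'.and (hn'.and (E2 r)))))).exists
    have := hx1.2.2.2 r (by rw [hx4]; exact hr) hx6
    rw [hx2, hx3, hx5] at this
    exact this hrD
  -- new elements
  have E4 : ∀ᶠ x in (U : Filter (Set (Col κ ⊕ L))), ∀ i : ℕ → L,
      (∀ n, i n ∈ {a | Sum.inr a ∈ x}) → ∃ w ∈ {a | Sum.inr a ∈ x},
        ∀ n m, Out R p₀ w (i n) (i m) := by
    by_contra hc
    rw [← Ultrafilter.eventually_not] at hc
    have hex : ∀ x : Set (Col κ ⊕ L), ∃ i : ℕ → L,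
        (¬ ∀ i : ℕ → L,
          (∀ n, i n ∈ {a | Sum.inr a ∈ x}) → ∃ w ∈ {a | Sum.inr a ∈ x},
            ∀ n m, Out R p₀ w (i n) (i m)) →
        (∀ n, Sum.inr (i n) ∈ x) ∧ ∀ w, Sum.inr w ∈ x → ¬ ∀ n m, Out R p₀ w (i n) (i m) := by
      intro x
      by_cases h : ∀ i : ℕ → L,
          (∀ n, i n ∈ {a | Sum.inr a ∈ x}) → ∃ w ∈ {a | Sum.inr a ∈ x},
            ∀ n m, Out R p₀ w (i n) (i m)
      · exact ⟨fun _ => z x, fun h' => absurd h h'⟩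
      · have h' := h
        push Not at h'
        obtain ⟨i, hi, h''⟩ := h'
        refine ⟨i, fun _ => ⟨hi, fun w hw hall => ?_⟩⟩
        obtain ⟨n, m, hnm⟩ := h'' w hw
        exact hnm (hall n m)
    choose i hex using hex
    have hc' : ∀ᶠ x in (U : Filter (Set (Col κ ⊕ L))), (∀ n, Sum.inr (i x n) ∈ x) ∧
        ∀ w, Sum.inr w ∈ x → ¬ ∀ n m, Out R p₀ w (i x n) (i x m) :=
      hc.mono fun x hx => hex x hx
    have hcst : ∀ n, ∃ a, ∀ᶠ x in (U : Filter (Set (Col κ ⊕ L))), i x n = a :=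
      fun n => UL (fun x => i x n) (hc'.mono fun x hx => hx.1 n)
    choose j hj using hcst
    have hj' := U2 (fun n x => i x n = j n) hj
    have hI : #(Set.range j) ≤ Lc κ := ((countable_range j).le_aleph0).trans hLc
    obtain ⟨w, -, hw⟩ := exists_out hLc hI (C := fun a b => {x | ∃ r ≤ p₀, UB R r x a b})
      (fun a _ b _ => hR.cov hω hP a b) (T := Set.univ) (by rwa [mk_univ])
    obtain ⟨x, hx1, hx2, hx3⟩ := (hc'.and (hj'.and (U3 (Sum.inr w)))).exists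
    refine hx1.2 w hx3 fun n m => ?_
    rw [hx2 n, hx2 m]
    intro r hr hu
    exact hw (j n) ⟨n, rfl⟩ (j m) ⟨m, rfl⟩ ⟨r, hr, hu⟩
  -- the splitting argument
  have hsplit : ∀ x : Set (Col κ ⊕ L), ∃ (q v : Col κ) (k : ℕ),
      (Bel (α x) p₀ → (∃ a, Sum.inr a ∈ x) → #x < κ → (∀ a ∈ {a | Sum.inr a ∈ x},
        ∀ b ∈ {a | Sum.inr a ∈ x}, ∀ n q, Bel (α x) q →
        ∃ q' ≤ q, Bel (α x) q' ∧ (q' ∈ D R n a b ∨ q' ∈ fnot (D R n a b))) →
      (∀ i : ℕ → L,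
        (∀ n, i n ∈ {a | Sum.inr a ∈ x}) → ∃ w ∈ {a | Sum.inr a ∈ x},
          ∀ n m, Out R p₀ w (i n) (i m)) →
      (Bel (α x) q ∧ q ≤ p₀ ∧ v ≤ p₀ ∧ q ≤ res (α x) v ∧
      ∀ q' ≤ q, Bel (α x) q' → ∀ v0 ≤ v, ∀ v1 ≤ v, q' ≤ res (α x) v0 → q' ≤ res (α x) v1 →
        ∀ i0 ∈ {a | Sum.inr a ∈ x}, ∀ i1 ∈ {a | Sum.inr a ∈ x}, ∀ m0 m1,
          v0 ∈ D R m0 i0 (z x) → v1 ∈ D R m1 i1 (z x) →
          q' ∉ fnot (D R (max (max m0 m1) k) i0 i1))) := by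
    intro x
    by_cases h : Bel (α x) p₀ ∧ (∃ a, Sum.inr a ∈ x) ∧ #x < κ ∧ (∀ a ∈ {a | Sum.inr a ∈ x},
        ∀ b ∈ {a | Sum.inr a ∈ x}, ∀ n q, Bel (α x) q →
        ∃ q' ≤ q, Bel (α x) q' ∧ (q' ∈ D R n a b ∨ q' ∈ fnot (D R n a b))) ∧
      (∀ i : ℕ → L,
        (∀ n, i n ∈ {a | Sum.inr a ∈ x}) → ∃ w ∈ {a | Sum.inr a ∈ x},
          ∀ n m, Out R p₀ w (i n) (i m))
    · obtain ⟨c1, c2, c3, c4, c5⟩ := h
      obtain ⟨q, v, k, h⟩ := split hR c1 c2 c4 c5 (hz x c3)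
      exact ⟨q, v, k, fun _ _ _ _ _ => h⟩
    · refine ⟨p₀, p₀, 0, fun c1 c2 c3 c4 c5 => absurd ⟨c1, c2, c3, c4, c5⟩ h⟩
  choose q v k hsplit using hsplit
  have hne : Nonempty L := by
    rw [← mk_ne_zero_iff]
    exact (lt_of_le_of_lt (zero_le) hL).ne'
  have E5 : ∀ᶠ x in (U : Filter (Set (Col κ ⊕ L))),
      (Bel (α x) (q x) ∧ q x ≤ p₀ ∧ v x ≤ p₀ ∧ q x ≤ res (α x) (v x) ∧
      ∀ q' ≤ q x, Bel (α x) q' → ∀ v0 ≤ v x, ∀ v1 ≤ v x, q' ≤ res (α x) v0 → q' ≤ res (α x) v1 →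
        ∀ i0 ∈ {a | Sum.inr a ∈ x}, ∀ i1 ∈ {a | Sum.inr a ∈ x}, ∀ m0 m1,
          v0 ∈ D R m0 i0 (z x) → v1 ∈ D R m1 i1 (z x) →
          q' ∉ fnot (D R (max (max m0 m1) (k x)) i0 i1)) := by
    filter_upwards [E2 p₀, U3 (Sum.inr (Classical.arbitrary L)), U1, E3, E4]
      with x c1 c2 c3 c4 c5
    exact hsplit x c1 ⟨_, c2⟩ c3 c4 c5
  obtain ⟨qs, hqs⟩ := Ucol q (E5.mono fun x hx => hx.1)
  obtain ⟨ks, hks⟩ := Unat k
  -- the name of the bound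
  have hN : ∀ i : L, ∃ (r : Col κ) (m : ℕ), r ≤ qs ∧
      ∀ᶠ x in (U : Filter (Set (Col κ ⊕ L))), ∃ w ≤ v x, w ∈ D R m i (z x) ∧ r ≤ res (α x) w := by
    intro i
    have hex : ∀ x : Set (Col κ ⊕ L), ∃ (w : Col κ) (m : ℕ), (Bel (α x) (q x) ∧ q x ≤ p₀ ∧
        v x ≤ p₀ ∧ q x ≤ res (α x) (v x)) → w ≤ v x ∧ w ∈ D R m i (z x) ∧
          res (α x) w ≤ q x := by
      intro x
      by_cases h : Bel (α x) (q x) ∧ q x ≤ p₀ ∧ v x ≤ p₀ ∧ q x ≤ res (α x) (v x)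
      · obtain ⟨u, hu1, hu2, hu3, -⟩ := amal' h.1 h.2.2.2
        obtain ⟨w, hw, m, hm⟩ := hR.ex u (hu2.trans h.2.2.1) i (z x)
        exact ⟨w, m, fun _ => ⟨hw.trans hu2, hm, (res_mono _ hw).trans hu3⟩⟩
      · exact ⟨p₀, 0, fun h' => absurd h' h⟩
    choose w m hw using hex
    obtain ⟨r, hr⟩ := Ucol (fun x => res (α x) (w x)) (Filter.Eventually.of_forall fun x =>
      bel_res (α x) (w x))
    obtain ⟨n, hn⟩ := Unat m
    refine ⟨r, n, ?_, ?_⟩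
    · obtain ⟨x, hx1, hx2, hx3⟩ := (E5.and (hqs.and hr)).exists
      have := (hw x ⟨hx1.1, hx1.2.1, hx1.2.2.1, hx1.2.2.2.1⟩).2.2
      rw [← hx3, ← hx2]
      exact this
    · filter_upwards [E5, hr, hn] with x hx1 hx2 hx3
      obtain ⟨j1, j2, j3⟩ := hw x ⟨hx1.1, hx1.2.1, hx1.2.2.1, hx1.2.2.2.1⟩
      refine ⟨w x, j1, ?_, hx2.symm.le⟩
      rw [← hx3]
      exact j2
  choose r m hr hrm using hN
  have hqsp : qs ≤ p₀ := by
    obtain ⟨x, hx1, hx2⟩ := (E5.and hqs).exists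
    rw [← hx2]
    exact hx1.2.1
  refine final hin hR hL (fun i => (r i, m i)) ks (fun i => (hr i).trans hqsp) ?_
  intro i j hij
  simp only at hij ⊢
  refine fex_dense fun s hs => ?_
  by_contra hno
  have hfn : s ∈ fnot (D R (max (max (m i) (m j)) ks) i j) := by
    intro t ht htD
    exact hno ⟨t, ht, htD⟩
  have hrj := hrm j
  rw [← hij] at hrj
  obtain ⟨x, hx1, hx2, hx3, hx4, hx5, hx6, hx7, hx8⟩ := (E5.and (hqs.and (hks.and ((hrm i).and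
    (hrj.and ((E2 s).and ((U3 (Sum.inr i)).and (U3 (Sum.inr j))))))))).exists
  obtain ⟨w0, hw0, hw0D, hw0r⟩ := hx4
  obtain ⟨w1, hw1, hw1D, hw1r⟩ := hx5
  have := hx1.2.2.2.2 s (by rw [hx2]; exact hs.trans (hr i)) hx6 w0 hw0 w1 hw1
    (hs.trans hw0r) (hs.trans hw1r) i hx7 j hx8 (m i) (m j) hw0D hw1D
  rw [hx3] at this
  exact this hfn

end

end Pool.Agent.TH779.DT
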